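import Pool.Agent.Helper816.HSFinal
import Pool.Agent.Helper733.HS.A6

set_option autoImplicit false

namespace Pool.Agent.Results.MP_a2efaf_al.IntervalCompletion

/-- `g` lists the minimal generators of the submonoid `Γ` of `ℕ` in increasing order. -/
structure IsMinimalGenerators (Γ : AddSubmonoid ℕ) {e : ℕ} (g : Fin (e + 1) → ℕ) : Prop where
  strictMono : StrictMono g
  closure_eq : AddSubmonoid.closure (Set.range g) = Γ
  minimal : ∀ i, g i ∉ AddSubmonoid.closure (g '' {j | j ≠ i})

/-- The toric ideal: the kernel of `k[X_0, ..., X_{n-1}] → k[τ]`, `X_i ↦ τ ^ (g i)`. -/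
noncomputable def toricIdeal (k : Type) [Field k] {n : ℕ} (g : Fin n → ℕ) :
    Ideal (MvPolynomial (Fin n) k) :=
  RingHom.ker (MvPolynomial.aeval (R := k) (fun i : Fin n => (Polynomial.X : Polynomial k) ^ g i))

/-- The ideal generated by the initial forms (lowest nonzero homogeneous components, standard
degree) of the elements of `I`. -/
noncomputable def initialFormIdeal {k : Type} [Field k] {n : ℕ}
    (I : Ideal (MvPolynomial (Fin n) k)) : Ideal (MvPolynomial (Fin n) k) :=
  Ideal.span {p | ∃ f ∈ I, ∃ d : ℕ, p = MvPolynomial.homogeneousComponent d f ∧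
    ∀ d' < d, MvPolynomial.homogeneousComponent d' f = 0}

/-- The minimal number of generators of an ideal. -/
noncomputable def numGens {R : Type} [CommRing R] (I : Ideal R) : ℕ :=
  sInf {n : ℕ | ∃ s : Finset R, s.card = n ∧ Ideal.span (s : Set R) = I}

/-- `b_1(G_Γ)` for the numerical semigroup with minimal generators `g`. -/
noncomputable def b1 (k : Type) [Field k] {n : ℕ} (g : Fin n → ℕ) : ℕ :=
  numGens (initialFormIdeal (toricIdeal k g))

lemma exists_numGens {R : Type} [CommRing R] [IsNoetherianRing R] (I : Ideal R) :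
    ∃ s : Finset R, s.card = numGens I ∧ Ideal.span (s : Set R) = I := by
  have hne : {n : ℕ | ∃ s : Finset R, s.card = n ∧ Ideal.span (s : Set R) = I}.Nonempty := by
    obtain ⟨s, hs⟩ := (isNoetherianRing_iff_ideal_fg R).1 inferInstance I
    exact ⟨s.card, s, rfl, hs⟩
  exact Nat.sInf_mem hne

lemma numGens_le {R : Type} [CommRing R] (I : Ideal R) (s : Finset R)
    (hs : Ideal.span (s : Set R) = I) : numGens I ≤ s.card :=
  Nat.sInf_le ⟨s, rfl, hs⟩

lemma pos_of {Γ : AddSubmonoid ℕ} {e : ℕ} {g : Fin (e + 1) → ℕ} (h : IsMinimalGenerators Γ g)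
    (i : Fin (e + 1)) : 0 < g i := by
  rcases Nat.eq_zero_or_pos (g i) with h0 | h0
  · exact absurd (h0 ▸ AddSubmonoid.zero_mem _) (h.minimal i)
  · exact h0

lemma gcd_of {Γ : AddSubmonoid ℕ} {e : ℕ} {g : Fin (e + 1) → ℕ} (h : IsMinimalGenerators Γ g)
    (hf : ((Γ : Set ℕ)ᶜ).Finite) : Finset.univ.gcd g = 1 := by
  have hd : ∀ x ∈ Γ, Finset.univ.gcd g ∣ x := by
    intro x hx
    rw [← h.closure_eq] at hx
    induction hx using AddSubmonoid.closure_induction with
    | mem x hx =>
      obtain ⟨i, rfl⟩ := hx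
      exact Finset.gcd_dvd (Finset.mem_univ i)
    | zero => exact dvd_zero _
    | add x y _ _ hx hy => exact dvd_add hx hy
  obtain ⟨N, hN⟩ := hf.bddAbove
  have h1 : N + 1 ∈ Γ := by
    by_contra hc
    have := hN hc
    omega
  have h2 : N + 1 + 1 ∈ Γ := by
    by_contra hc
    have := hN hc
    omega
  exact Nat.dvd_one.1 ((Nat.dvd_add_right (hd _ h1)).1 (hd _ h2))

/-- The minimal generators of the semigroup generated by the interval `[a,b]`. -/
lemma interval_gens (a b : ℕ) (ha : 0 < a) (hab : a ≤ b) {e : ℕ} (g : Fin (e + 1) → ℕ)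
    (h : IsMinimalGenerators (AddSubmonoid.closure (Set.Icc a b)) g) :
    e + 1 = min b (2 * a - 1) + 1 - a ∧ g = fun j : Fin (e + 1) => a + (j : ℕ) := by
  set T := AddSubmonoid.closure (Set.Icc a b) with hT
  have hTa : ∀ x ∈ T, x = 0 ∨ a ≤ x := by
    intro x hx
    induction hx using AddSubmonoid.closure_induction with
    | mem x hx => exact Or.inr hx.1
    | zero => exact Or.inl rfl
    | add x y _ _ hx hy => omega
  -- elements of `[a, min b (2a-1)]` are generators
  have hgT : ∀ i, g i ∈ T := fun i => by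
    rw [← h.closure_eq]; exact AddSubmonoid.subset_closure ⟨i, rfl⟩
  have hirr : ∀ x ∈ AddSubmonoid.closure (Set.range g), 0 < x → x ≤ 2 * a - 1 →
      x ∈ Set.range g := by
    intro x hx
    induction hx using AddSubmonoid.closure_induction with
    | mem x hx => intro _ _; exact hx
    | zero => intro h0; exact absurd h0 (lt_irrefl _)
    | add x y hx hy ihx ihy =>
      intro h0 h1
      rw [h.closure_eq] at hx hy
      rcases hTa x hx with rfl | hx'
      · rw [zero_add] at h0 h1 ⊢
        exact ihy h0 h1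
      · rcases hTa y hy with rfl | hy'
        · rw [add_zero] at h0 h1 ⊢
          exact ihx h0 h1
        · omega
  have hsub : Set.Icc a (min b (2 * a - 1)) ⊆ Set.range g := by
    intro x hx
    have hx1 : a ≤ x := hx.1
    have hx2 : x ≤ min b (2 * a - 1) := hx.2
    refine hirr x ?_ (by omega) (by omega)
    rw [h.closure_eq]
    exact AddSubmonoid.subset_closure ⟨hx1, by omega⟩
  -- the closure of the short interval is everything
  have hcl : ∀ x, a ≤ x → (x ≤ b ∨ 2 * a - 1 ≤ b) → 
      x ∈ AddSubmonoid.closure (Set.Icc a (min b (2 * a - 1))) := by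
    intro x
    induction x using Nat.strong_induction_on with
    | _ x ih =>
      intro hx hb
      by_cases hx2 : x ≤ min b (2 * a - 1)
      · exact AddSubmonoid.subset_closure ⟨hx, hx2⟩
      · have hx3 : 2 * a ≤ x := by omega
        have := ih (x - a) (by omega) (by omega) (by omega)
        have h2 : a ∈ AddSubmonoid.closure (Set.Icc a (min b (2 * a - 1))) :=
          AddSubmonoid.subset_closure ⟨le_rfl, by omega⟩
        have h3 := AddSubmonoid.add_mem _ this h2
        rwa [Nat.sub_add_cancel (by omega)] at h3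
  have hrange : Set.range g = Set.Icc a (min b (2 * a - 1)) := by
    refine Set.Subset.antisymm ?_ hsub
    rintro _ ⟨i, rfl⟩
    by_contra hc
    have hpos := pos_of h i
    have ha' : a ≤ g i := by
      rcases hTa _ (hgT i) with h0 | h0
      · omega
      · exact h0
    have hb' : g i ≤ b ∨ 2 * a - 1 ≤ b := by
      by_contra hcon
      push Not at hcon
      -- then `b < 2a - 1`, every element of `T` outside `[a,b]` is a sum
      have key : ∀ x ∈ AddSubmonoid.closure (Set.Icc a b),
          x ∈ AddSubmonoid.closure (Set.Icc a (min b (2 * a - 1))) := by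
        intro x hx
        have : min b (2 * a - 1) = b := by omega
        rwa [this]
      have h1 := key _ (hgT i)
      refine h.minimal i (AddSubmonoid.closure_mono ?_ h1)
      intro x hx
      obtain ⟨j, hj⟩ := hsub hx
      refine ⟨j, ?_, hj⟩
      rintro rfl
      exact hc (hj ▸ hx)
    have h1 := hcl _ ha' hb'
    refine h.minimal i (AddSubmonoid.closure_mono ?_ h1)
    intro x hx
    obtain ⟨j, hj⟩ := hsub hx
    refine ⟨j, ?_, hj⟩
    rintro rfl
    exact hc (hj ▸ hx)
  have hcard : e + 1 = min b (2 * a - 1) + 1 - a := by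
    have h1 : Nat.card (Set.range g) = e + 1 := by
      rw [Nat.card_range_of_injective h.strictMono.injective]
      simp
    rw [hrange] at h1
    simp at h1
    omega
  refine ⟨hcard, ?_⟩
  have hmono : StrictMono (fun j : Fin (e + 1) => a + (j : ℕ)) := by
    intro i j hij
    exact Nat.add_lt_add_left hij a
  refine (h.strictMono.range_inj hmono).1 ?_
  rw [hrange]
  ext x
  simp only [Set.mem_Icc, Set.mem_range]
  constructor
  · rintro ⟨hx1, hx2⟩
    exact ⟨⟨x - a, by omega⟩, by simp; omega⟩
  · rintro ⟨j, rfl⟩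
    have := j.2
    omega

/-- **Relations of the associated graded ring and the interval completion.** -/
theorem result (k : Type) [Field k] (Γ : AddSubmonoid ℕ) (hΓ : ((Γ : Set ℕ)ᶜ).Finite)
    (e : ℕ) (g : Fin (e + 1) → ℕ) (hg : IsMinimalGenerators Γ g) :
    b1 k g ≤ (g 0).choose 2 ∧
    ∀ (e' : ℕ) (g' : Fin (e' + 1) → ℕ),
      IsMinimalGenerators (AddSubmonoid.closure (Set.Icc (g 0) (g (Fin.last e)))) g' →
        b1 k g ≤ b1 k g' := by
  have h0 : 0 < g 0 := pos_of hg 0
  have hgcd := gcd_of hg hΓ
  have hB : 1 ≤ e → ∃ S : Finset (MvPolynomial (Fin (e + 1)) k),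
      Ideal.span (S : Set (MvPolynomial (Fin (e + 1)) k)) =
        Ideal.span (Pool.Agent.Helper816.TCAlg.inGen k g) ∧ S.card ≤ (g 0).choose 2 := by
    intro he
    obtain ⟨S, h1, h2⟩ := Pool.Agent.Helper733.HS.SG.main_bound
      ⟨he, hg.strictMono, h0, hgcd, hg.minimal⟩ k
    exact ⟨S, h2, h1⟩
  refine ⟨?_, ?_⟩
  · by_cases he : 1 ≤ e
    · obtain ⟨S, h1, h2⟩ := hB he
      refine (numGens_le _ S ?_).trans h2
      rw [h1]
      exact (Pool.Agent.Helper816.HSWide.span_form k g).symm
    · have he0 : e = 0 := by omega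
      subst he0
      have hg1 : g 0 = 1 := by
        have h1 : (Finset.univ : Finset (Fin (0 + 1))) = {0} := rfl
        rw [h1, Finset.gcd_singleton] at hgcd
        simpa using hgcd
      have hw : ∀ u : Fin (0 + 1) →₀ ℕ, u.degree = u 0 := by
        intro u
        rw [Finsupp.degree_eq_sum]
        exact Fin.sum_univ_one _
      have hw2 : ∀ u : Fin (0 + 1) →₀ ℕ, Finsupp.weight g u = u 0 := by
        intro u
        rw [Finsupp.weight_apply, Finsupp.sum_fintype _ _ (fun i => zero_smul ℕ (g i))]
        refine (Fin.sum_univ_one (fun i : Fin 1 => u i • g i)).trans ?_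
        show u 0 • g 0 = u 0
        rw [hg1, smul_eq_mul, mul_one]
      have hbot : initialFormIdeal (toricIdeal k g) = ⊥ := by
        refine (Pool.Agent.Helper816.HSWide.span_form k g).trans ?_
        rw [Ideal.span_eq_bot]
        rintro p (⟨u, v, h1, _, rfl⟩ | ⟨u, v, h1, h2, rfl⟩)
        · have huv : u = v := by
            ext i
            rw [hw, hw] at h1
            have hi : i = 0 := by
              have h5 := i.2
              have h6 : ((0 : Fin (0 + 1)) : ℕ) = 0 := rfl
              exact Fin.ext (by omega)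
            rw [hi]; exact h1
          rw [huv, sub_self]
        · rw [hw, hw] at h1
          rw [hw2, hw2] at h2
          omega
      show numGens (initialFormIdeal (toricIdeal k g)) ≤ _
      rw [hbot]
      refine (numGens_le _ ∅ (by simp)).trans ?_
      simp
  · intro e' g' hg'
    obtain ⟨hm, rfl⟩ := interval_gens (g 0) (g (Fin.last e)) h0
      (hg.strictMono.monotone (Fin.zero_le _)) g' hg'
    obtain ⟨t, ht1, ht2⟩ := exists_numGens (initialFormIdeal (toricIdeal k
      (fun j : Fin (e' + 1) => g 0 + (j : ℕ))))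
    obtain ⟨s, hs1, hs2⟩ := Pool.Agent.Helper816.HSFinal.concl k e g hg.strictMono h0 hB (e' + 1) hm
      (initialFormIdeal (toricIdeal k g)) (initialFormIdeal (toricIdeal k
      (fun j : Fin (e' + 1) => g 0 + (j : ℕ)))) rfl rfl t ht2
    calc b1 k g ≤ s.card := numGens_le _ s hs2
      _ ≤ t.card := hs1
      _ = _ := ht1

end Pool.Agent.Results.MP_a2efaf_al.IntervalCompletion
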